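import Pool.Agent.Work.MP_94c317_gt.Blocks

set_option autoImplicit false
open Set Topology TopologicalSpace
open Cardinal hiding univ

namespace Pool.Agent.Results.MP_94c317_gt.AlephOneDiscrete

open Pool.Agent.MP94c317

universe u

/-- The space is a countable union of locally separable pieces: each point of the `n`-th piece
has an open neighbourhood whose trace on that piece lies in the closure of a countable set. -/
def SigmaLocSeparable (X : Type u) [TopologicalSpace X] : Prop :=
  ∃ L : ℕ → Set X, (⋃ n, L n) = univ ∧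
    ∀ n, ∀ x ∈ L n, ∃ U, IsOpen U ∧ x ∈ U ∧ IsSeparable (U ∩ L n)

/-- with a sigma-disjoint base, subsets of separable sets are Lindelöf -/
theorem lindelof_of_separable {X : Type u} [TopologicalSpace X] (hB : HasSigmaDisjointBase X)
    (S T : Set X) (hS : IsSeparable S) (hTS : T ⊆ S) : IsLindelof T := by
  classical
  obtain ⟨B, hBb, hBd⟩ := hB
  obtain ⟨D, hDc, hSD⟩ := hS
  have hBo : ∀ n, ∀ W ∈ B n, IsOpen W := fun n W hW => hBb.isOpen (mem_iUnion.2 ⟨n, hW⟩)
  have hcn : ∀ n, {W | W ∈ B n ∧ (W ∩ S).Nonempty}.Countable := by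
    intro n
    have hd : ∀ W : {W | W ∈ B n ∧ (W ∩ S).Nonempty}, ∃ d : D, (d : X) ∈ (W : Set X) := by
      rintro ⟨W, hW, x, hxW, hxS⟩
      obtain ⟨d, h1, h2⟩ := mem_closure_iff.1 (hSD hxS) W (hBo n W hW) hxW
      exact ⟨⟨d, h2⟩, h1⟩
    choose d hd using hd
    have hinj : Function.Injective d := by
      intro W W' h
      apply Subtype.ext
      by_contra hne
      have h1 : (d W : X) ∈ (W : Set X) := hd W
      have h2 : (d W : X) ∈ (W' : Set X) := by rw [h]; exact hd W'
      exact Set.disjoint_left.1 (hBd n W.2.1 W'.2.1 hne) h1 h2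
    have : Countable D := hDc.to_subtype
    have : Countable {W | W ∈ B n ∧ (W ∩ S).Nonempty} := hinj.countable
    exact Set.countable_coe_iff.1 this
  refine isLindelof_of_countable_subcover ?_
  intro ι U hUo hTU
  -- base members meeting `S` and lying in some `U i`
  let C : Set (Set X) := {W | (∃ n, W ∈ B n ∧ (W ∩ S).Nonempty) ∧ ∃ i, W ⊆ U i}
  have hC : C.Countable := by
    have : (⋃ n, {W | W ∈ B n ∧ (W ∩ S).Nonempty}).Countable := countable_iUnion hcn
    refine this.mono ?_
    rintro W ⟨⟨n, hn⟩, -⟩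
    exact mem_iUnion.2 ⟨n, hn⟩
  have hex : ∀ W : C, ∃ i, (W : Set X) ⊆ U i := fun W => W.2.2
  choose i hi using hex
  have : Countable C := hC.to_subtype
  refine ⟨range i, countable_range i, ?_⟩
  intro x hx
  obtain ⟨j, hj⟩ := mem_iUnion.1 (hTU hx)
  obtain ⟨W, hW, hxW, hWU⟩ := hBb.exists_subset_of_mem_open hj (hUo j)
  obtain ⟨n, hn⟩ := mem_iUnion.1 hW
  have hWC : W ∈ C := ⟨⟨n, hn, x, hxW, hTS hx⟩, j, hWU⟩
  exact mem_biUnion (mem_range_self (⟨W, hWC⟩ : C)) (hi ⟨W, hWC⟩ hxW)

/-- a countable union of relatively discrete subspaces is in the class -/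
theorem sigmaLocSeparable_of_relDiscrete {X : Type u} [TopologicalSpace X]
    (h : SigmaRelDiscrete X) : SigmaLocSeparable X := by
  obtain ⟨L, hL, hd⟩ := h
  refine ⟨L, hL, fun n x hx => ?_⟩
  obtain ⟨U, hUo, hU⟩ := hd n x hx
  have hxU : x ∈ U ∩ L n := by
    rw [hU]
    exact mem_singleton x
  exact ⟨U, hUo, hxU.1, by rw [hU]; exact (countable_singleton x).isSeparable⟩

/-- The `ℵ₁`-part of Rudin's question. In a normal space which has a σ-disjoint base and is a
countable union of locally separable pieces, every open cover is refined by the union of at most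
`ℵ₁` discrete open families (paracompactness asks for countably many). -/
theorem result (X : Type u) [TopologicalSpace X] [T4Space X] (hB : HasSigmaDisjointBase X)
    (hX : SigmaLocSeparable X) (O : Set (Set X)) (hO : ∀ U ∈ O, IsOpen U) (hOc : ⋃₀ O = univ) :
    ∃ F : Set (Set (Set X)), #F ≤ ℵ₁ ∧ (∀ D ∈ F, DiscreteFam D ∧ Refines D O) ∧
      ⋃₀ (⋃₀ F) = univ := by
  refine alephOne hB ?_ O hO hOc
  obtain ⟨L, hL, hU⟩ := hX
  refine ⟨L, hL, fun n x hx => ?_⟩
  obtain ⟨U, hUo, hxU, hS⟩ := hU n x hx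
  exact ⟨U, hUo, hxU, fun T hT => lindelof_of_separable hB _ T hS hT⟩

end Pool.Agent.Results.MP_94c317_gt.AlephOneDiscrete
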