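import Pool.Agent.Work.MP_94c317_gt.Metrize
import Pool.Agent.Work.MP_94c317_gt.SmallB
import Pool.Agent.Work.MP_94c317_gt.Pieces

set_option autoImplicit false
open Set Topology TopologicalSpace Filter
open Cardinal hiding univ

namespace Pool.Agent.Results.MP_94c317_gt.BoundingNumber

open Pool.Agent.MP94c317

universe u

/-- Let `X` be a `T₁` space with a σ-disjoint base which is a countable union of relatively
discrete subspaces, let `κ < 𝔟`, and suppose that every point has a neighbourhood with at most `κ`
points. Then every subset of `X` is a `Gδ`, and if `X` is normal then `X` is metrizable. -/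
theorem result (X : Type u) [TopologicalSpace X] [T1Space X] (hB : HasSigmaDisjointBase X)
    (hD : SigmaRelDiscrete X) (κ : Cardinal.{0}) (hκ : κ < boundingNumber)
    (hX : ∀ x : X, ∃ U : Set X, IsOpen U ∧ x ∈ U ∧ #U ≤ lift.{u} κ) :
    (∀ A : Set X, IsGδ A) ∧ (NormalSpace X → MetrizableSpace X) := by
  have hG : ∀ A : Set X, IsGδ A := by
    intro A
    have hκ' : max κ ℵ₀ < boundingNumber := max_lt hκ aleph0_lt_boundingNumber
    obtain ⟨C, hC1, hC2, hC3, hC4⟩ := exists_pieces hB (lift.{u} (max κ ℵ₀))
      (by rw [← lift_aleph0.{u, 0}, Cardinal.lift_le]; exact le_max_right _ _)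
      (fun x => by
        obtain ⟨U, h1, h2, h3⟩ := hX x
        exact ⟨U, h1, h2, h3.trans (Cardinal.lift_le.2 (le_max_left _ _))⟩)
    refine isGδ_of_pieces C hC1 hC2 hC4 A fun x => ?_
    exact exists_open_limit_seq_b hB hD (C x) ((hC3 x).trans_lt (Cardinal.lift_lt.2 hκ')) A
  refine ⟨hG, fun hN => ?_⟩
  have : T4Space X := { }
  exact metrizable_of_perfect hB fun F _ => hG F

end Pool.Agent.Results.MP_94c317_gt.BoundingNumber
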